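import Pool.Agent.Lib.MP_a3e05c_co.NUM.TabA
import Pool.Agent.Lib.MP_a3e05c_co.RTK.Num
import Pool.Agent.Lib.MP_a3e05c_co.RT.Final

/-!
# EULER, case C7: the lower bounds for the number of regular tournaments, instantiated
-/

open Finset

namespace MP_a3e05c_co.C7

open KL NUM

theorem rt_low : RTlow := by
  intro n hn h3 h
  have h1 : n = 3 ∨ n = 5 ∨ n = 7 ∨ n = 9 ∨ n = 11 ∨ n = 13 ∨ n = 15 ∨ n = 17 ∨ n = 19 ∨
      n = 21 ∨ n = 23 := by
    obtain ⟨k, rfl⟩ := hn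
    omega
  rcases h1 with rfl | rfl | rfl | rfl | rfl | rfl | rfl | rfl | rfl | rfl | rfl
  · exact RTK.RT_3
  · exact RTK.RT_5
  · exact RTK.RT_7
  · exact RTK.RT_9
  · exact RTK.RT_11
  · exact RTK.RT_13
  · exact RTK.RT_15
  · exact RTK.RT_17
  · exact RTK.RT_19
  · exact RTK.RT_21
  · exact RTK.RT_23

theorem rt_gen : RTgen := fun n hn h => RT.PK_low n hn h

theorem pk_low (m : ℕ) (hm : Odd m) (h : 17 ≤ m) : Real.exp (NCS.mainR m) ≤ PK m := by
  rcases le_or_gt m 23 with h1 | h1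
  · exact RTK.PK_low_small m hm (by omega) h1
  · exact RT.PK_low m hm h1.le

end MP_a3e05c_co.C7
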