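import Pool.Agent.Lib.MP_a3e05c_co.C7.Merge
import Pool.Agent.Lib.MP_a3e05c_co.CA.Closed

/-!
# EULER, case C7: many missing edges (block CA)
-/

open Finset

namespace MP_a3e05c_co.C7

theorem many2 : Many2 := by
  intro V E _ _ _ _ hd hs hev C n q hC hn hodd h9 hsum hq htw hI
  refine CA.closed_ge hs hev hC hn hodd h9 hsum hq htw fun W hW hW2 _ => hI W hW ?_
  rw [← card_pos, hW2]
  norm_num

end MP_a3e05c_co.C7
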