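import Pool.Agent.Lib.MP_a3e05c_co.IRR.Defs
import Pool.Agent.Lib.MP_a3e05c_co.KL.ClosedB
import Pool.Agent.Lib.MP_a3e05c_co.KL.BridgeB

/-!
# EULER, case C7: structure of a closed block
-/

open Finset

namespace MP_a3e05c_co.C7

open KL

variable {V E : Type} [Fintype V] [DecidableEq V] [Fintype E] [DecidableEq E]

theorem closed_adj {hd : E → Bool → V} (hs : Simple hd) {C : Finset V}
    (hC : Closed hd C) {u v : V} (hu : u ∈ C) (h : Adj hd u v) : v ∈ C := by
  have h1 : (nb hd (univ : Finset V) u).card ≤ (nb hd C u).card := by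
    rw [card_nb hs, card_nb hs, hC u hu]
    exact kk_le_deg hs _ _
  have h2 : nb hd C u ⊆ nb hd (univ : Finset V) u := by
    intro x hx
    rw [mem_nb] at hx ⊢
    exact ⟨mem_univ _, hx.2⟩
  have h3 := Finset.eq_of_subset_of_card_le h2 h1
  have h4 : v ∈ nb hd (univ : Finset V) u := by
    rw [mem_nb]
    exact ⟨mem_univ _, h⟩
  rw [← h3, mem_nb] at h4
  exact h4.1

theorem kk_out {hd : E → Bool → V} (hs : Simple hd) {A C : Finset V}
    (hC : Closed hd C) {v : V} (hv : v ∉ C) : kk hd (A \ C) v = kk hd A v := by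
  rw [← card_nb hs, ← card_nb hs]
  congr 1
  ext u
  rw [mem_nb, mem_nb, mem_sdiff]
  constructor
  · rintro ⟨⟨h, _⟩, h'⟩
    exact ⟨h, h'⟩
  · rintro ⟨h, h'⟩
    exact ⟨⟨h, fun hu => hv (closed_adj hs hC hu h'.symm)⟩, h'⟩

/-- a closed set satisfying the bound can be removed -/
theorem red_of_closed {hd : E → Bool → V} (hs : Simple hd) {A C : Finset V} (hCA : C ⊆ A)
    (hC : Closed hd C) (hne : C.Nonempty)
    (hb : PA hd C ≤ Real.exp (∑ v ∈ C, AA (deg hd v))) : Red hd A := by
  refine ⟨A \ C, ?_, ?_⟩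
  · refine sdiff_subset.ssubset_of_ne fun h => ?_
    obtain ⟨c, hc⟩ := hne
    have h1 : c ∈ A \ C := by rw [h]; exact hCA hc
    exact (mem_sdiff.1 h1).2 hc
  · have h1 : pot hd A - pot hd (A \ C) = ∑ v ∈ C, AA (deg hd v) := by
      unfold pot
      rw [← sum_sdiff hCA]
      have h2 : ∑ v ∈ A \ C, phi (deg hd v) (kk hd A v) =
          ∑ v ∈ A \ C, phi (deg hd v) (kk hd (A \ C) v) := by
        refine sum_congr rfl fun v hv => ?_
        rw [kk_out hs hC (mem_sdiff.1 hv).2]
      have h3 : ∑ v ∈ C, phi (deg hd v) (kk hd A v) = ∑ v ∈ C, AA (deg hd v) := by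
        refine sum_congr rfl fun v hv => ?_
        have h4 : kk hd A v = deg hd v := le_antisymm (kk_le_deg hs A v) (by
          have := kk_mono hCA v (hd := hd)
          rw [hC v hv] at this
          exact this)
        rw [h4, phi_full]
      rw [h2, h3]
      ring
    rw [h1, PA_split hs hCA hC, mul_comm]
    exact mul_le_mul_of_nonneg_right hb (PA_nonneg hd _)

/-- the closed neighbourhood of `w` is closed -/
theorem closed_NB {hd : E → Bool → V} (hs : Simple hd) {A : Finset V} {w : V} (hw : w ∈ A)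
    (hwf : Full hd A w) (hf : ∀ u ∈ nb hd A w, Full hd A u)
    (hc : ∀ u ∈ NB hd A w, nb hd A u ⊆ NB hd A w) :
    NB hd A w ⊆ A ∧ Closed hd (NB hd A w) ∧ (NB hd A w).card = deg hd w + 1 := by
  have hsub : NB hd A w ⊆ A := by
    intro u hu
    rcases mem_insert.1 hu with rfl | hu
    · exact hw
    · exact (mem_nb.1 hu).1
  refine ⟨hsub, ?_, ?_⟩
  · intro v hv
    have h1 : kk hd A v = deg hd v := by
      rcases mem_insert.1 hv with rfl | hv'
      · exact hwf
      · exact hf v hv'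
    rw [← h1, ← card_nb hs, ← card_nb hs]
    congr 1
    ext u
    constructor
    · intro hu
      rw [mem_nb] at hu ⊢
      exact ⟨hsub hu.1, hu.2⟩
    · intro hu
      rw [mem_nb]
      exact ⟨hc v hv hu, (mem_nb.1 hu).2⟩
  · unfold NB
    rw [card_insert_of_notMem fun h => Adj.ne hs (mem_nb.1 h).2 rfl, card_nb hs, hwf]

/-- degrees in a closed set -/
theorem deg_le_card {hd : E → Bool → V} (hs : Simple hd) {C : Finset V} (hC : Closed hd C)
    {v : V} (hv : v ∈ C) : deg hd v ≤ C.card - 1 := by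
  rw [← hC v hv, ← card_nb hs]
  have h1 : nb hd C v ⊆ C.erase v := by
    intro u hu
    rw [mem_nb] at hu
    rw [mem_erase]
    exact ⟨Adj.ne hs hu.2, hu.1⟩
  have h2 := card_le_card h1
  rwa [card_erase_of_mem hv] at h2

/-- the number of missing edges is at least `3` if it is not `0` -/
theorem three_le {hd : E → Bool → V} (hs : Simple hd) (hev : ∀ v, Even (deg hd v))
    {C : Finset V} (hC : Closed hd C) {n q : ℕ} (hn : C.card = n) (hodd : Odd n)
    (hsum : ∑ v ∈ C, (n - 1 - deg hd v) = 2 * q) (hq : q ≠ 0) : 3 ≤ q := by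
  have h1 : ∃ u ∈ C, n - 1 - deg hd u ≠ 0 := by
    by_contra h
    push Not at h
    rw [sum_eq_zero h] at hsum
    omega
  obtain ⟨u, hu, hu0⟩ := h1
  have hpar : ∀ v ∈ C, n - 1 - deg hd v ≠ 0 → 2 ≤ n - 1 - deg hd v := by
    intro v _ h
    obtain ⟨a, ha⟩ := hev v
    obtain ⟨b, hb⟩ := hodd
    omega
  -- the non-neighbours of `u`
  have h2 := hpar u hu hu0
  have h3 : 2 ≤ ((C.erase u) \ nb hd C u).card := by
    have h4 : nb hd C u ⊆ C.erase u := by
      intro x hx
      rw [mem_nb] at hx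
      rw [mem_erase]
      exact ⟨Adj.ne hs hx.2, hx.1⟩
    rw [card_sdiff_of_subset h4, card_erase_of_mem hu, card_nb hs, hC u hu, hn]
    exact h2
  have h4 : ∀ x ∈ (C.erase u) \ nb hd C u, 2 ≤ n - 1 - deg hd x := by
    intro x hx
    rw [mem_sdiff, mem_erase] at hx
    obtain ⟨⟨hxu, hxC⟩, hxn⟩ := hx
    apply hpar x hxC
    intro h0
    have h5 : deg hd x ≤ C.card - 2 := by
      rw [← hC x hxC, ← card_nb hs]
      have h6 : nb hd C x ⊆ (C.erase x).erase u := by
        intro y hy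
        rw [mem_nb] at hy
        rw [mem_erase, mem_erase]
        refine ⟨?_, Adj.ne hs hy.2, hy.1⟩
        rintro rfl
        exact hxn (mem_nb.2 ⟨hxC, hy.2.symm⟩)
      have h7 := card_le_card h6
      rw [card_erase_of_mem (mem_erase.2 ⟨fun h => hxu h.symm, hu⟩), card_erase_of_mem hxC] at h7
      omega
    have h6 : 2 ≤ C.card := by
      have h7 : ({u, x} : Finset V) ⊆ C := by
        intro z hz
        rw [mem_insert, mem_singleton] at hz
        rcases hz with rfl | rfl
        · exact hu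
        · exact hxC
      have h8 := card_le_card h7
      rwa [card_pair (fun h => hxu h.symm)] at h8
    omega
  have h5 : 2 * 3 ≤ 2 * q := by
    rw [← hsum]
    have h6 : insert u ((C.erase u) \ nb hd C u) ⊆ C := by
      intro z hz
      rcases mem_insert.1 hz with rfl | hz
      · exact hu
      · exact mem_of_mem_erase (mem_sdiff.1 hz).1
    have h7 : u ∉ (C.erase u) \ nb hd C u := fun h => (mem_erase.1 (mem_sdiff.1 h).1).1 rfl
    refine le_trans ?_ (sum_le_sum_of_subset h6)
    rw [sum_insert h7]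
    have h8 : ((C.erase u) \ nb hd C u).card * 2 ≤
        ∑ x ∈ (C.erase u) \ nb hd C u, (n - 1 - deg hd x) := by
      rw [← smul_eq_mul]
      exact card_nsmul_le_sum _ _ _ h4
    omega
  omega

/-- passage to the sub-multigraph -/
theorem restrict {hd : E → Bool → V} (hs : Simple hd) (hev : ∀ v, Even (deg hd v))
    {C : Finset V} (hC : Closed hd C) {n q : ℕ} (hn : C.card = n)
    (hsum : ∑ v ∈ C, (n - 1 - deg hd v) = 2 * q) :
    Simple (hdR hd C) ∧ (∀ v, Even (deg (hdR hd C) v)) ∧ Fintype.card {v // v ∈ C} = n ∧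
    2 * Fintype.card {e : E // ∀ b, hd e b ∈ C} + 2 * q = n * (n - 1) ∧
    PA hd C = PA (hdR hd C) univ ∧
    ∑ v, AA (deg (hdR hd C) v) = ∑ v ∈ C, AA (deg hd v) := by
  have hsR := simple_hdR hs C
  refine ⟨hsR, fun v => by rw [deg_hdR hs hC]; exact hev _, by rw [Fintype.card_coe, hn], ?_,
    PA_restrict hs hC, ?_⟩
  · rw [two_card_edges hsR, ← hsum]
    have h1 : ∑ v, deg (hdR hd C) v = ∑ v ∈ C, deg hd v := by
      rw [← sum_coe_sort C (fun v => deg hd v)]
      exact sum_congr rfl fun v _ => deg_hdR hs hC v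
    rw [h1, ← sum_add_distrib]
    have h2 : ∀ v ∈ C, deg hd v + (n - 1 - deg hd v) = n - 1 := by
      intro v hv
      have := deg_le_card hs hC hv
      rw [hn] at this
      omega
    rw [sum_congr rfl h2, sum_const, hn, smul_eq_mul]
  · rw [← sum_coe_sort C (fun v => AA (deg hd v))]
    exact sum_congr rfl fun v _ => by rw [deg_hdR hs hC v]

/-- existence of `q` -/
theorem exists_q {hd : E → Bool → V} (hev : ∀ v, Even (deg hd v)) {C : Finset V} {n : ℕ}
    (hodd : Odd n) : ∃ q, ∑ v ∈ C, (n - 1 - deg hd v) = 2 * q := by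
  have h1 : Even (∑ v ∈ C, (n - 1 - deg hd v)) := by
    apply even_sum
    intro v _
    obtain ⟨a, ha⟩ := hev v
    obtain ⟨b, hb⟩ := hodd
    exact ⟨b - a, by omega⟩
  obtain ⟨a, ha⟩ := h1
  exact ⟨a, by omega⟩

/-- the complete case -/
theorem clique {hd : E → Bool → V} (hs : Simple hd) (hev : ∀ v, Even (deg hd v))
    {C : Finset V} (hC : Closed hd C) {n : ℕ} (hn : C.card = n) (hodd : Odd n)
    (hsum : ∑ v ∈ C, (n - 1 - deg hd v) = 0) :
    PA hd C ≤ Real.exp (∑ v ∈ C, AA (deg hd v)) := by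
  have h1 : ∀ v ∈ C, deg hd v + 1 = C.card := by
    intro v hv
    have h2 := (sum_eq_zero_iff.1 hsum) v hv
    have h3 := deg_le_card hs hC hv
    have h4 : 1 ≤ n := hodd.pos
    omega
  have h2 : ∑ v ∈ C, AA (deg hd v) = Real.log (PK n) := by
    have h3 : ∀ v ∈ C, AA (deg hd v) = AA (n - 1) := by
      intro v hv
      have := h1 v hv
      congr 1
      omega
    rw [sum_congr rfl h3, sum_const, hn, nsmul_eq_mul]
    unfold AA
    have h4 : 1 ≤ n := hodd.pos
    rw [Nat.sub_add_cancel h4, Nat.cast_sub h4]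
    have h5 : (n : ℝ) ≠ 0 := by exact_mod_cast (by omega : n ≠ 0)
    rw [Nat.cast_one, sub_add_cancel, mul_div_cancel₀ _ h5]
  rw [PA_clique hs hC h1, hn, h2]
  exact Real.le_exp_log _

end MP_a3e05c_co.C7
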