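import Pool.Agent.Lib.MP_a3e05c_co.KL.CliqueUp
import Pool.Agent.Lib.MP_a3e05c_co.NUM.Small
import Pool.Agent.Lib.MP_a3e05c_co.C7.Struct

/-!
# EULER, case C7: complement of a triangle, `n = 15, 17, 19, 21`
-/

open Finset

namespace MP_a3e05c_co.C7

open KL NUM

theorem Ud_eq {d : ℕ} (hd : 2 ≤ d) : NCS.Ud d = ∑ j ∈ range d, gf d j := by
  have h1 : ∑ j ∈ range d, gf d j = d * Real.log (bb (d / 2)) + (1 / 2) * ∑ j ∈ range d,
      -Real.log (1 - ((j : ℝ) * ((j : ℝ) - 1)) / (((d : ℝ) - 1) ^ 2 * ((d : ℝ) - j + 1))) := by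
    unfold gf
    rw [sum_sub_distrib, sum_const, card_range, nsmul_eq_mul, sum_neg_distrib, mul_neg, mul_sum]
    ring
  rw [h1]
  unfold NCS.Ud
  have h2 : NCS.cb (d / 2) = bb (d / 2) := rfl
  rw [h2]
  congr 2
  symm
  rw [range_eq_Ico, sum_eq_sum_Ico_succ_bot (by omega : 0 < d),
    sum_eq_sum_Ico_succ_bot (by omega : 0 + 1 < d)]
  simp

/-- upper bound for `log P(K_(d+1))` -/
theorem log_PK_le {d : ℕ} (hde : Even d) (hd : 4 ≤ d) :
    S * Real.log (PK (d + 1)) ≤ -(sumZ (glL d) d : ℝ) := by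
  have hS := S_pos
  have h1 := PK_le_Ud hde hd
  rw [Ud_eq (by omega)] at h1
  have h2 : (sumZ (glL d) d : ℝ) ≤ ∑ j ∈ range d, S * -gf d j := by
    rw [sumZ_eq, Int.cast_sum]
    refine sum_le_sum fun j hj => ?_
    rw [mem_range] at hj
    exact glL_le (by omega) hj
  rw [← mul_sum, sum_neg_distrib] at h2
  have h3 := mul_le_mul_of_nonneg_left h1 hS.le
  linarith

/-- the check -/
def ck3 (n : ℕ) : Bool :=
  decide ((lgU (n + 1) (n - 2) : ℤ) + 3 * aU (n - 3) ≤ 3 * (sumZ (glL (n - 1)) (n - 1) / n))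

theorem ck3_15 : ck3 15 = true := by decide +kernel
theorem ck3_17 : ck3 17 = true := by decide +kernel
theorem ck3_19 : ck3 19 = true := by decide +kernel
theorem ck3_21 : ck3 21 = true := by decide +kernel

theorem c3_of_ck (hR : RTlow) (hP : RTgen) {n : ℕ} (hodd : Odd n) (h5 : 5 ≤ n)
    (hck : ck3 n = true) :
    ((n : ℝ) + 1) / (n - 2) * PK n ≤ Real.exp (3 * AA (n - 3) + ((n : ℝ) - 3) * AA (n - 1)) := by
  have hS := S_pos
  unfold ck3 at hck
  rw [decide_eq_true_eq] at hck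
  have hn2 : ((n - 2 : ℕ) : ℝ) = (n : ℝ) - 2 := by
    rw [Nat.cast_sub (by omega)]; norm_num
  have hn5 : (5 : ℝ) ≤ n := by exact_mod_cast h5
  have hev1 : Even (n - 1) := by obtain ⟨k, rfl⟩ := hodd; exact ⟨k, by omega⟩
  have hev3 : Even (n - 3) := by obtain ⟨k, rfl⟩ := hodd; exact ⟨k - 1, by omega⟩
  have h1 := le_lgU (a := n + 1) (b := n - 2) (by omega) (by omega)
  have h2 := le_aU hR hP hev3 (by omega)
  have h3 := log_PK_le hev1 (by omega)
  rw [Nat.sub_add_cancel (by omega : 1 ≤ n)] at h3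
  have h4 := ediv_le (sumZ (glL (n - 1)) (n - 1)) n (by omega)
  have h5' : (lgU (n + 1) (n - 2) : ℝ) + 3 * (aU (n - 3) : ℝ) ≤
      3 * ((sumZ (glL (n - 1)) (n - 1) / n : ℤ) : ℝ) := by exact_mod_cast hck
  have hpk : 0 < PK n := by
    have := PK_pos hev1
    rwa [Nat.sub_add_cancel (by omega : 1 ≤ n)] at this
  have hAA : (n : ℝ) * AA (n - 1) = Real.log (PK n) := by
    unfold AA
    rw [Nat.sub_add_cancel (by omega : 1 ≤ n), Nat.cast_sub (by omega : 1 ≤ n), Nat.cast_one,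
      sub_add_cancel, mul_div_cancel₀]
    linarith
  have hn0 : (0 : ℝ) < n := by linarith
  rw [← Real.exp_log hpk, ← Real.exp_log (show (0 : ℝ) < ((n : ℝ) + 1) / (n - 2) by
    apply div_pos <;> linarith), ← Real.exp_add]
  apply Real.exp_le_exp.2
  rw [hn2, Nat.cast_add, Nat.cast_one] at h1
  have h6 : S * AA (n - 1) ≤ -((sumZ (glL (n - 1)) (n - 1) / n : ℤ) : ℝ) := by
    have h7 : (sumZ (glL (n - 1)) (n - 1) : ℝ) / n ≤ -(S * AA (n - 1)) := by
      rw [div_le_iff₀ hn0]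
      have h8 : -(S * AA (n - 1)) * n = -(S * ((n : ℝ) * AA (n - 1))) := by ring
      rw [h8, hAA]
      linarith
    linarith
  have h9 : S * (Real.log (((n : ℝ) + 1) / (n - 2)) + Real.log (PK n)) ≤
      S * (3 * AA (n - 3) + ((n : ℝ) - 3) * AA (n - 1)) := by
    rw [← hAA]
    have e1 : S * (Real.log (((n : ℝ) + 1) / (n - 2)) + (n : ℝ) * AA (n - 1)) =
        S * Real.log (((n : ℝ) + 1) / (n - 2)) + ((n : ℝ) - 3) * (S * AA (n - 1)) +
          3 * (S * AA (n - 1)) := by ring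
    have e2 : S * (3 * AA (n - 3) + ((n : ℝ) - 3) * AA (n - 1)) =
        3 * (S * AA (n - 3)) + ((n : ℝ) - 3) * (S * AA (n - 1)) := by ring
    have e3 : S * -AA (n - 3) = -(S * AA (n - 3)) := by ring
    rw [e3] at h2
    rw [e1, e2]
    linarith
  exact le_of_mul_le_mul_left h9 hS

variable {V E : Type} [Fintype V] [DecidableEq V] [Fintype E] [DecidableEq E]

/-- at least three vertices are not of full degree -/
theorem three_low {hd : E → Bool → V} (hs : Simple hd) (hev : ∀ v, Even (deg hd v))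
    {C : Finset V} (hC : Closed hd C) {n : ℕ} (hn : C.card = n) (hodd : Odd n) {u : V}
    (hu : u ∈ C) (hu0 : deg hd u ≠ n - 1) :
    3 ≤ (C.filter fun v => deg hd v ≠ n - 1).card := by
  have hle : ∀ v ∈ C, deg hd v ≤ n - 1 := fun v hv => by
    have := deg_le_card hs hC hv
    rwa [hn] at this
  have h2 : 2 ≤ n - 1 - deg hd u := by
    have h1 := hle u hu
    obtain ⟨a, ha⟩ := hev u
    obtain ⟨b, hb⟩ := hodd
    omega
  have h3 : 2 ≤ ((C.erase u) \ nb hd C u).card := by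
    have h4 : nb hd C u ⊆ C.erase u := by
      intro x hx
      rw [KL.mem_nb] at hx
      rw [mem_erase]
      exact ⟨Adj.ne hs hx.2, hx.1⟩
    rw [card_sdiff_of_subset h4, card_erase_of_mem hu, card_nb hs, hC u hu, hn]
    exact h2
  have h4 : ∀ x ∈ (C.erase u) \ nb hd C u, deg hd x ≠ n - 1 := by
    intro x hx h0
    rw [mem_sdiff, mem_erase] at hx
    obtain ⟨⟨hxu, hxC⟩, hxn⟩ := hx
    apply hxn
    have h5 := adj_twin hs hC hxC (by rw [hn]; exact h0) hu (fun h => hxu h.symm)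
    exact KL.mem_nb.2 ⟨hxC, h5.symm⟩
  have h6 : insert u ((C.erase u) \ nb hd C u) ⊆ C.filter fun v => deg hd v ≠ n - 1 := by
    intro z hz
    rw [mem_filter]
    rcases mem_insert.1 hz with rfl | hz
    · exact ⟨hu, hu0⟩
    · exact ⟨mem_of_mem_erase (mem_sdiff.1 hz).1, h4 z hz⟩
  have h7 : u ∉ (C.erase u) \ nb hd C u := fun h => (mem_erase.1 (mem_sdiff.1 h).1).1 rfl
  have h8 := card_le_card h6
  rw [card_insert_of_notMem h7] at h8
  omega

/-- the degrees if three edges are missing -/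
theorem sum_tri {hd : E → Bool → V} (hs : Simple hd) (hev : ∀ v, Even (deg hd v))
    {C : Finset V} (hC : Closed hd C) {n : ℕ} (hn : C.card = n) (hodd : Odd n)
    (hsum : ∑ v ∈ C, (n - 1 - deg hd v) = 2 * 3) (A : ℕ → ℝ) :
    ∑ v ∈ C, A (deg hd v) = 3 * A (n - 3) + ((n : ℝ) - 3) * A (n - 1) := by
  have hle : ∀ v ∈ C, deg hd v ≤ n - 1 := fun v hv => by
    have := deg_le_card hs hC hv
    rwa [hn] at this
  have h1 : ∃ u ∈ C, deg hd u ≠ n - 1 := by
    by_contra h
    push Not at h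
    rw [sum_eq_zero fun v hv => by rw [h v hv]; simp] at hsum
    omega
  obtain ⟨u, hu, hu0⟩ := h1
  have h2 := three_low hs hev hC hn hodd hu hu0
  set N := C.filter fun v => deg hd v ≠ n - 1 with hN
  have hpar : ∀ v ∈ N, 2 ≤ n - 1 - deg hd v := by
    intro v hv
    obtain ⟨h3, h4⟩ := mem_filter.1 hv
    have h5 := hle v h3
    obtain ⟨a, ha⟩ := hev v
    obtain ⟨b, hb⟩ := hodd
    omega
  have h3 : ∑ v ∈ N, (n - 1 - deg hd v) = 6 := by
    rw [hN, sum_filter, ← show 2 * 3 = 6 from rfl, ← hsum]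
    refine sum_congr rfl fun v _ => ?_
    split_ifs with h
    · rfl
    · push Not at h
      rw [h]; simp
  have h4 : ∑ v ∈ N, (n - 1 - deg hd v - 2) + N.card * 2 = 6 := by
    rw [← h3, ← smul_eq_mul, ← sum_const, ← sum_add_distrib]
    refine sum_congr rfl fun v hv => ?_
    have := hpar v hv
    omega
  have h5 : N.card = 3 := by omega
  have h6 : ∑ v ∈ N, (n - 1 - deg hd v - 2) = 0 := by omega
  have h7 : ∀ v ∈ N, deg hd v = n - 3 := by
    intro v hv
    have h8 := (sum_eq_zero_iff.1 h6) v hv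
    have h9 := hpar v hv
    omega
  rw [← sum_filter_add_sum_filter_not C (fun v => deg hd v ≠ n - 1)]
  have h8 : ∑ v ∈ C.filter (fun v => deg hd v ≠ n - 1), A (deg hd v) = 3 * A (n - 3) := by
    rw [← hN, sum_congr rfl fun v hv => by rw [h7 v hv], sum_const, h5, nsmul_eq_mul]
    norm_num
  have h9 : ∑ v ∈ C.filter (fun v => ¬ deg hd v ≠ n - 1), A (deg hd v) =
      ((n : ℝ) - 3) * A (n - 1) := by
    have h10 := card_filter_add_card_filter_not (s := C) (fun v => deg hd v ≠ n - 1)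
    rw [← hN, h5, hn] at h10
    have h11 : ((C.filter (fun v => ¬ deg hd v ≠ n - 1)).card : ℝ) = (n : ℝ) - 3 := by
      have : (C.filter (fun v => ¬ deg hd v ≠ n - 1)).card = n - 3 := by omega
      rw [this, Nat.cast_sub (by omega)]
      norm_num
    rw [sum_congr rfl fun v hv => by
      rw [show deg hd v = n - 1 from not_not.1 (mem_filter.1 hv).2], sum_const, nsmul_eq_mul, h11]
  rw [h8, h9]

/-- **Complement of a triangle**, from the exact value. -/
theorem PA_tri (hR : RTlow) (hP : RTgen) {hd : E → Bool → V} (hs : Simple hd)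
    (hev : ∀ v, Even (deg hd v)) {C : Finset V} (hC : Closed hd C) {n : ℕ}
    (hn : C.card = n) (hodd : Odd n) (hsum : ∑ v ∈ C, (n - 1 - deg hd v) = 2 * 3)
    (hn' : n = 15 ∨ n = 17 ∨ n = 19 ∨ n = 21)
    (hex : PA hd C ≤ ((n : ℝ) + 1) / (n - 2) * PK n) :
    PA hd C ≤ Real.exp (∑ v ∈ C, AA (deg hd v)) := by
  rw [sum_tri hs hev hC hn hodd hsum AA]
  refine hex.trans (c3_of_ck hR hP hodd (by omega) ?_)
  rcases hn' with rfl | rfl | rfl | rfl
  · exact ck3_15
  · exact ck3_17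
  · exact ck3_19
  · exact ck3_21

end MP_a3e05c_co.C7
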