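import Pool.Agent.Lib.MP_a3e05c_co.C7.Small
import Pool.Agent.Lib.MP_a3e05c_co.C7.Tri

/-!
# EULER, case C7: assembly of the closed case from the blocks NC, SW, CA, NUM
-/

open Finset

namespace MP_a3e05c_co.C7

open KL NUM

/-- the bound for all graphs with `n` vertices and `q` missing edges -/
def Whole (n q : ℕ) : Prop :=
  ∀ (V E : Type) [Fintype V] [DecidableEq V] [Fintype E] [DecidableEq E] (hd : E → Bool → V),
    Simple hd → (∀ v, Even (deg hd v)) → Fintype.card V = n →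
    Fintype.card E + q = n * (n - 1) / 2 → PA hd univ ≤ Real.exp (∑ v, AA (deg hd v))

/-- the exact value for three missing edges (block SW) -/
def Tri (n : ℕ) : Prop :=
  ∀ (V E : Type) [Fintype V] [DecidableEq V] [Fintype E] [DecidableEq E] (hd : E → Bool → V),
    Simple hd → (∀ v, Even (deg hd v)) → Fintype.card V = n →
    Fintype.card E + 3 = n * (n - 1) / 2 → PA hd univ ≤ ((n : ℝ) + 1) / (n - 2) * PK n

/-- the case of many missing edges (block CA) -/
def Many : Prop :=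
  ∀ (V E : Type) [Fintype V] [DecidableEq V] [Fintype E] [DecidableEq E] (hd : E → Bool → V),
    Simple hd → (∀ v, Even (deg hd v)) → ∀ (C : Finset V) (n q : ℕ), Closed hd C →
    C.card = n → Odd n → 9 ≤ n → ∑ v ∈ C, (n - 1 - deg hd v) = 2 * q → n - 1 ≤ 2 * q →
    (∃ w ∈ C, deg hd w = n - 1) →
    (∀ W ⊆ C, W.Nonempty →
      PA hd (C \ W) ≤ Real.exp (∑ v ∈ C \ W, phi (deg hd v) (kk hd (C \ W) v))) →
    PA hd C ≤ Real.exp (∑ v ∈ C, AA (deg hd v))

/-- the same with two vertices of degree `n - 1` -/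
def Many2 : Prop :=
  ∀ (V E : Type) [Fintype V] [DecidableEq V] [Fintype E] [DecidableEq E] (hd : E → Bool → V),
    Simple hd → (∀ v, Even (deg hd v)) → ∀ (C : Finset V) (n q : ℕ), Closed hd C →
    C.card = n → Odd n → 9 ≤ n → ∑ v ∈ C, (n - 1 - deg hd v) = 2 * q → n - 1 ≤ 2 * q →
    2 ≤ (C.filter fun v => deg hd v = n - 1).card →
    (∀ W ⊆ C, W.Nonempty →
      PA hd (C \ W) ≤ Real.exp (∑ v ∈ C \ W, phi (deg hd v) (kk hd (C \ W) v))) →
    PA hd C ≤ Real.exp (∑ v ∈ C, AA (deg hd v))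

variable {V E : Type} [Fintype V] [DecidableEq V] [Fintype E] [DecidableEq E]

theorem of_whole {n q : ℕ} (h : Whole n q) {hd : E → Bool → V} (hs : Simple hd)
    (hev : ∀ v, Even (deg hd v)) {C : Finset V} (hC : Closed hd C) (hn : C.card = n)
    (hsum : ∑ v ∈ C, (n - 1 - deg hd v) = 2 * q) :
    PA hd C ≤ Real.exp (∑ v ∈ C, AA (deg hd v)) := by
  obtain ⟨h1, h2, h3, h4, h5, h6⟩ := restrict hs hev hC hn hsum
  rw [h5, ← h6]
  exact h _ _ (hdR hd C) h1 h2 h3 (by omega)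

theorem of_tri {n : ℕ} (h : Tri n) {hd : E → Bool → V} (hs : Simple hd)
    (hev : ∀ v, Even (deg hd v)) {C : Finset V} (hC : Closed hd C) (hn : C.card = n)
    (hsum : ∑ v ∈ C, (n - 1 - deg hd v) = 2 * 3) :
    PA hd C ≤ ((n : ℝ) + 1) / (n - 2) * PK n := by
  obtain ⟨h1, h2, h3, h4, h5, h6⟩ := restrict hs hev hC hn hsum
  rw [h5]
  exact h _ _ (hdR hd C) h1 h2 h3 (by omega)

/-- **The closed case**, assembled. -/
theorem PA_closed (hR : RTlow) (hP : RTgen)
    (hT : ∀ n, n = 15 ∨ n = 17 ∨ n = 19 ∨ n = 21 → Tri n)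
    (h4 : ∀ n, n = 19 ∨ n = 21 → Whole n 4) (h5 : Whole 21 5)
    (hN : ∀ n q, Odd n → 23 ≤ n → 1 ≤ q → 2 * q + 3 ≤ n →
      ¬ ((n = 23 ∧ (q = 9 ∨ q = 10)) ∨ (n = 25 ∧ q = 11) ∨ (n = 27 ∧ q = 12)) → Whole n q)
    (hM : Many2)
    {hd : E → Bool → V} (hs : Simple hd)
    (hev : ∀ v, Even (deg hd v)) {C : Finset V} (hC : Closed hd C) {n : ℕ}
    (hn : C.card = n) (hodd : Odd n) (h3 : 3 ≤ n)
    (hw2 : 2 ≤ (C.filter fun v => deg hd v = n - 1).card)
    (hI : ∀ W ⊆ C, W.Nonempty →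
      PA hd (C \ W) ≤ Real.exp (∑ v ∈ C \ W, phi (deg hd v) (kk hd (C \ W) v))) :
    PA hd C ≤ Real.exp (∑ v ∈ C, AA (deg hd v)) := by
  have hw : ∃ w ∈ C, deg hd w = n - 1 := by
    obtain ⟨w, hw⟩ := card_pos.1 (lt_of_lt_of_le two_pos hw2)
    exact ⟨w, (mem_filter.1 hw).1, (mem_filter.1 hw).2⟩
  obtain ⟨q, hq⟩ := exists_q (C := C) hev hodd
  rcases Nat.eq_zero_or_pos q with h0 | h0
  · subst h0
    exact clique hs hev hC hn hodd hq
  have hq3 := three_le hs hev hC hn hodd hq (by omega)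
  -- `n = 3` is impossible
  have hn5 : 5 ≤ n := by
    have h6 := card_twins hs hev hC hn hodd hq
    by_contra hlt
    have hn3 : n = 3 := by
      obtain ⟨k, rfl⟩ := hodd
      omega
    subst hn3
    obtain ⟨w, hwC, hwd⟩ := hw
    have h7 : ∑ v ∈ C, (3 - 1 - deg hd v) ≤ ∑ v ∈ C.erase w, 2 := by
      rw [← add_sum_erase _ _ hwC, hwd]
      simp only [Nat.sub_self, zero_add]
      exact sum_le_sum fun v _ => by omega
    rw [sum_const, card_erase_of_mem hwC, hn, smul_eq_mul] at h7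
    omega
  by_cases hbig : n - 1 ≤ 2 * q ∧ 9 ≤ n
  · exact hM V E hd hs hev C n q hC hn hodd hbig.2 hq hbig.1 hw2 hI
  have small : SmallQ n q → PA hd C ≤ Real.exp (∑ v ∈ C, AA (deg hd v)) := fun h =>
    PA_small hR hP hs hev hC hn hodd hq h hw hI
  have hcase : n = 5 ∨ n = 7 ∨ n = 9 ∨ n = 11 ∨ n = 13 ∨ n = 15 ∨ n = 17 ∨ n = 19 ∨ n = 21 ∨
      23 ≤ n := by
    obtain ⟨k, rfl⟩ := hodd
    omega
  have hpar : 9 ≤ n → 2 * q + 3 ≤ n := by
    intro h9
    obtain ⟨k, rfl⟩ := hodd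
    omega
  have tri : ∀ m, m = 15 ∨ m = 17 ∨ m = 19 ∨ m = 21 → n = m → q = 3 →
      PA hd C ≤ Real.exp (∑ v ∈ C, AA (deg hd v)) := by
    rintro m hm rfl rfl
    exact PA_tri hR hP hs hev hC hn hodd hq hm (of_tri (hT _ hm) hs hev hC hn hq)
  rcases hcase with h | h | h | h | h | h | h | h | h | h
  · subst h
    exact small (Or.inl ⟨rfl, hq3⟩)
  · subst h
    exact small (Or.inr (Or.inl ⟨rfl, hq3⟩))
  · subst h
    have := hpar (by norm_num)
    exact small (Or.inr (Or.inr (Or.inl ⟨rfl, by omega⟩)))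
  · subst h
    have := hpar (by norm_num)
    exact small (Or.inr (Or.inr (Or.inr (Or.inl ⟨rfl, hq3, by omega⟩))))
  · subst h
    have := hpar (by norm_num)
    exact small (Or.inr (Or.inr (Or.inr (Or.inr (Or.inl ⟨rfl, hq3, by omega⟩)))))
  · have := hpar (by omega)
    by_cases h1 : q = 3
    · exact tri 15 (by norm_num) h h1
    · subst h
      exact small (Or.inr (Or.inr (Or.inr (Or.inr (Or.inr (Or.inl ⟨rfl, by omega, by omega⟩))))))
  · have := hpar (by omega)
    by_cases h1 : q = 3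
    · exact tri 17 (by norm_num) h h1
    · subst h
      exact small (Or.inr (Or.inr (Or.inr (Or.inr (Or.inr (Or.inr
        (Or.inl ⟨rfl, by omega, by omega⟩)))))))
  · have := hpar (by omega)
    by_cases h1 : q = 3
    · exact tri 19 (by norm_num) h h1
    by_cases h2 : q = 4
    · subst h2
      exact of_whole (h4 n (Or.inl h)) hs hev hC hn hq
    · subst h
      exact small (Or.inr (Or.inr (Or.inr (Or.inr (Or.inr (Or.inr (Or.inr
        (Or.inl ⟨rfl, by omega, by omega⟩))))))))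
  · have := hpar (by omega)
    by_cases h1 : q = 3
    · exact tri 21 (by norm_num) h h1
    by_cases h2 : q = 4
    · subst h2
      exact of_whole (h4 n (Or.inr h)) hs hev hC hn hq
    by_cases h5' : q = 5
    · subst h5'
      subst h
      exact of_whole h5 hs hev hC hn hq
    · subst h
      exact small (Or.inr (Or.inr (Or.inr (Or.inr (Or.inr (Or.inr (Or.inr (Or.inr
        (Or.inl ⟨rfl, by omega, by omega⟩)))))))))
  · have h6 := hpar (by omega)
    by_cases hx : (n = 23 ∧ (q = 9 ∨ q = 10)) ∨ (n = 25 ∧ q = 11) ∨ (n = 27 ∧ q = 12)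
    · exact small (Or.inr (Or.inr (Or.inr (Or.inr (Or.inr (Or.inr (Or.inr (Or.inr
        (Or.inr hx)))))))))
    · exact of_whole (hN n q hodd h (by omega) h6 hx) hs hev hC hn hq

/-- the case C7 from the closed case -/
theorem red_of (hcl : ∀ {hd : E → Bool → V}, Simple hd → (∀ v, Even (deg hd v)) →
      ∀ {C : Finset V}, Closed hd C → ∀ {n : ℕ}, C.card = n → Odd n → 3 ≤ n →
      2 ≤ (C.filter fun v => deg hd v = n - 1).card → (∀ W ⊆ C, W.Nonempty →
        PA hd (C \ W) ≤ Real.exp (∑ v ∈ C \ W, phi (deg hd v) (kk hd (C \ W) v))) →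
      PA hd C ≤ Real.exp (∑ v ∈ C, AA (deg hd v)))
    {hd : E → Bool → V} (hs : Simple hd) (hev : ∀ v, Even (deg hd v)) {A : Finset V}
    {D : ℕ} {w : V} (hw : Twins hd A D w)
    (hc : ∀ u ∈ NB hd A w, nb hd A u ⊆ NB hd A w)
    (IH : ∀ B : Finset V, B.card < A.card → PA hd B ≤ Real.exp (pot hd B)) : Red hd A := by
  obtain ⟨h1, h2, h3⟩ := closed_NB hs hw.mem hw.full hw.nb_full hc
  have hwC : w ∈ NB hd A w := mem_insert_self _ _
  have hD2 : 2 ≤ deg hd w := by
    obtain ⟨v, hv, hvD⟩ := hw.two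
    have h4 : 0 < (nb hd A w).card := card_pos.2 ⟨v, hv⟩
    rw [card_nb hs, hw.full] at h4
    obtain ⟨a, ha⟩ := hev w
    omega
  have htw : 2 ≤ ((NB hd A w).filter fun v => deg hd v = deg hd w + 1 - 1).card := by
    obtain ⟨v, hv, hvD⟩ := hw.two
    have h5 : w ≠ v := (Adj.ne hs (KL.mem_nb.1 hv).2).symm
    have h6 : ({w, v} : Finset V) ⊆ (NB hd A w).filter fun v => deg hd v = deg hd w + 1 - 1 := by
      intro x hx
      rw [mem_insert, mem_singleton] at hx
      rw [mem_filter, Nat.add_sub_cancel]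
      rcases hx with rfl | rfl
      · exact ⟨hwC, rfl⟩
      · exact ⟨mem_insert_of_mem hv, by rw [hvD, hw.deg_eq]⟩
    have h7 := card_le_card h6
    rwa [card_pair h5] at h7
  refine red_of_closed hs h1 h2 ⟨w, hwC⟩ (hcl hs hev h2 h3 (hev w).add_one (by omega)
    htw fun W hW hne => IH _ ?_)
  have h4 : (NB hd A w \ W).card < (NB hd A w).card := by
    rw [card_sdiff_of_subset hW]
    have h5 := card_pos.2 hne
    have h6 := card_le_card hW
    omega
  exact lt_of_lt_of_le h4 (card_le_card h1)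

end MP_a3e05c_co.C7
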