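import Pool.Agent.Lib.MP_a3e05c_co.C7.Merge
import Pool.Agent.Lib.MP_a3e05c_co.OUT.Bridge

/-!
# EULER, case C7: near cliques with at least 23 vertices (instantiation of block OUT)
-/

open Finset

namespace MP_a3e05c_co.C7

open KL NUM

theorem whole_near (hL : ∀ m : ℕ, Odd m → 17 ≤ m → Real.exp (NCS.mainR m) ≤ PK m)
    (n q : ℕ) (hodd : Odd n) (h23 : 23 ≤ n) (h1 : 1 ≤ q) (h2 : 2 * q + 3 ≤ n)
    (hx : ¬ ((n = 23 ∧ (q = 9 ∨ q = 10)) ∨ (n = 25 ∧ q = 11) ∨ (n = 27 ∧ q = 12))) :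
    Whole n q := by
  intro V E _ _ _ _ hd hs hev hcard hE
  have hq : n * (n - 1) / 2 - Fintype.card E = q := by omega
  refine NC.near_clique hs hev hcard hodd h23 (by omega) (by rw [hq]; omega) ?_
    (fun m h1 h2 _ => hL m h1 h2)
  rw [hq]
  intro h
  apply hx
  unfold OUT.Exc at h
  rcases h with h | h | h | h
  · exact Or.inl ⟨h.1, Or.inl h.2⟩
  · exact Or.inl ⟨h.1, Or.inr h.2⟩
  · exact Or.inr (Or.inl h)
  · exact Or.inr (Or.inr h)

end MP_a3e05c_co.C7
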