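import Pool.Agent.Lib.MP_a3e05c_co.NUM.Ck

/-!
# EULER, case C7: closed components, the pairs `(n, q)` treated by deletion of twins
-/

open Finset

namespace MP_a3e05c_co.C7

open KL NUM

variable {V E : Type} [Fintype V] [DecidableEq V] [Fintype E] [DecidableEq E]

/-- the pairs `(n, q)` treated by deletion of twins -/
def SmallQ (n q : ℕ) : Prop :=
  (n = 5 ∧ 3 ≤ q) ∨ (n = 7 ∧ 3 ≤ q) ∨ (n = 9 ∧ q = 3) ∨ (n = 11 ∧ 3 ≤ q ∧ q ≤ 4) ∨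
  (n = 13 ∧ 3 ≤ q ∧ q ≤ 5) ∨ (n = 15 ∧ 4 ≤ q ∧ q ≤ 6) ∨ (n = 17 ∧ 4 ≤ q ∧ q ≤ 7) ∨
  (n = 19 ∧ 5 ≤ q ∧ q ≤ 8) ∨ (n = 21 ∧ 6 ≤ q ∧ q ≤ 9) ∨
  (n = 23 ∧ (q = 9 ∨ q = 10)) ∨ (n = 25 ∧ q = 11) ∨ (n = 27 ∧ q = 12)

theorem PA_small (hR : RTlow) (hP : RTgen) {hd : E → Bool → V} (hs : Simple hd)
    (hev : ∀ v, Even (deg hd v)) {C : Finset V} (hC : Closed hd C) {n q : ℕ}
    (hn : C.card = n) (hodd : Odd n)
    (hsum : ∑ v ∈ C, (n - 1 - deg hd v) = 2 * q) (hq : SmallQ n q)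
    (hw : ∃ w ∈ C, deg hd w = n - 1)
    (hI : ∀ W ⊆ C, W.Nonempty →
      PA hd (C \ W) ≤ Real.exp (∑ v ∈ C \ W, phi (deg hd v) (kk hd (C \ W) v))) :
    PA hd C ≤ Real.exp (∑ v ∈ C, AA (deg hd v)) := by
  have htw := card_twins hs hev hC hn hodd hsum
  have htw1 : 1 ≤ (C.filter fun v => deg hd v = n - 1).card := by
    obtain ⟨w, hw1, hw2⟩ := hw
    exact card_pos.2 ⟨w, mem_filter.2 ⟨hw1, hw2⟩⟩
  have main : ∀ t q0 : ℕ, 1 ≤ t → t + 1 < n → q0 ≤ q →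
      t ≤ (C.filter fun v => deg hd v = n - 1).card → ck n t q0 = true →
      PA hd C ≤ Real.exp (∑ v ∈ C, AA (deg hd v)) := by
    intro t q0 ht htn hq0 htc hck
    refine of_ck hR hP hs hev hC hn hodd ht htn hsum hq0 htc (fun W hW hWt _ => hI W hW ?_) hck
    rw [← card_pos]
    omega
  rcases hq with ⟨rfl, h⟩ | ⟨rfl, h⟩ | ⟨rfl, h⟩ | ⟨rfl, h⟩ | ⟨rfl, h⟩ | ⟨rfl, h⟩ | ⟨rfl, h⟩ |
    ⟨rfl, h⟩ | ⟨rfl, h⟩ | ⟨rfl, h⟩ | ⟨rfl, h⟩ | ⟨rfl, h⟩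
  · exact main 1 3 le_rfl (by omega) h htw1 ck_5_1_3
  · rcases eq_or_lt_of_le h with h1 | h1
    · exact main 3 3 (by omega) (by omega) h (by omega) ck_7_3_3
    · exact main 1 4 le_rfl (by omega) h1 htw1 ck_7_1_4
  · exact main 3 3 (by omega) (by omega) h.ge (by omega) ck_9_3_3
  · exact main 4 3 (by omega) (by omega) h.1 (by omega) ck_11_4_3
  · exact main 8 3 (by omega) (by omega) h.1 (by omega) ck_13_8_3
  · exact main 8 4 (by omega) (by omega) h.1 (by omega) ck_15_8_4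
  · rcases eq_or_lt_of_le h.1 with h1 | h1
    · exact main 12 4 (by omega) (by omega) h.1 (by omega) ck_17_12_4
    · exact main 8 5 (by omega) (by omega) h1 (by omega) ck_17_8_5
  · exact main 11 5 (by omega) (by omega) h.1 (by omega) ck_19_11_5
  · exact main 12 6 (by omega) (by omega) h.1 (by omega) ck_21_12_6
  · exact main 6 9 (by omega) (by omega) (by omega) (by omega) ck_23_6_9
  · exact main 6 11 (by omega) (by omega) (by omega) (by omega) ck_25_6_11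
  · exact main 6 12 (by omega) (by omega) (by omega) (by omega) ck_27_6_12

end MP_a3e05c_co.C7
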